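import Pool.Agent.helper21.OD.SpecA

/-!
# Row od:FIN (MP_2e0e07_nt): the module of modular symbols is finitely generated
-/

namespace Pool.Agent.OD

open MvPolynomial Matrix

/-- exponents -/
noncomputable def FIN_exp {k : ℕ} (g : Fin 4 → Fin (k + 1)) : Fin 4 →₀ ℕ :=
  Finsupp.equivFunOnFinite.symm (fun i => ((g i : Fin (k + 1)) : ℕ))

theorem FIN_weight1 (d : Fin 4 →₀ ℕ) :
    Finsupp.weight (![1, 1, 0, 0] : Fin 4 → ℕ) d = d 0 + d 1 := by
  rw [Finsupp.weight_apply, Finsupp.sum_fintype _ _ (fun i => by simp), Fin.sum_univ_four]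
  simp

theorem FIN_weight2 (d : Fin 4 →₀ ℕ) :
    Finsupp.weight (![0, 0, 1, 1] : Fin 4 → ℕ) d = d 2 + d 3 := by
  rw [Finsupp.weight_apply, Finsupp.sum_fintype _ _ (fun i => by simp), Fin.sum_univ_four]
  simp

/-- a bihomogeneous polynomial is zero if its coefficients at the exponents `FIN_exp g` are -/
theorem FIN_zero {A : Type} [CommRing A] {k : ℕ} {P : Pol A} (hP : BiHom k P)
    (h : ∀ g : Fin 4 → Fin (k + 1), coeff (FIN_exp g) P = 0) : P = 0 := by
  ext d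
  rw [coeff_zero]
  by_contra hne
  have h1 := hP.1 hne
  have h2 := hP.2 hne
  rw [FIN_weight1] at h1
  rw [FIN_weight2] at h2
  have hle : ∀ i : Fin 4, d i < k + 1 := by
    intro i
    fin_cases i
    · show d 0 < k + 1
      omega
    · show d 1 < k + 1
      omega
    · show d 2 < k + 1
      omega
    · show d 3 < k + 1
      omega
  have hd : d = FIN_exp (fun i => (⟨d i, hle i⟩ : Fin (k + 1))) := by
    ext i
    simp [FIN_exp]
  apply hne
  rw [hd]
  exact h _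

/-- the evaluation map -/
noncomputable def FIN_map {t : ℤ} {A : Type} [CommRing A] (f : Oz t →+* A) (k N : ℕ)
    (χ : Oz t → A) (F : Finset (GO t)) :
    Sym f k N χ →ₗ[A] (F × (Fin 4 → Fin (k + 1)) → A) where
  toFun φ := fun p => coeff (FIN_exp p.2)
    (φ.1 (p.1.1.val *ᵥ ![1, 0]) (p.1.1.val *ᵥ ![0, 1]))
  map_add' φ ψ := by
    ext p
    simp
  map_smul' a φ := by
    ext p
    simp

theorem FIN (hFIX : FIX_stmt) (hMAN : MAN_stmt) : FIN_stmt := by
  intro t ht A _ _ f k N χ hN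
  obtain ⟨F, hF⟩ := hFIX t N hN
  refine Module.Finite.of_injective (FIN_map f k N χ F) ?_
  rw [injective_iff_map_eq_zero]
  intro φ hφ
  have hs : IsSym f k N χ φ.1 := φ.2
  have h1 : ∀ δ ∈ F, φ.1 (δ.val *ᵥ ![1, 0]) (δ.val *ᵥ ![0, 1]) = 0 := by
    intro δ hδ
    refine FIN_zero (hs.hom _ _) fun g => ?_
    exact congrFun hφ (⟨δ, hδ⟩, g)
  have h2 : ∀ γ : GO t, φ.1 (γ.val *ᵥ ![1, 0]) (γ.val *ᵥ ![0, 1]) = 0 := by
    intro γ
    obtain ⟨δ, hδ, h, hh, rfl⟩ := hF γ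
    have e1 : ∀ w : Vec t, (h * δ).val *ᵥ w = h.val *ᵥ (δ.val *ᵥ w) := by
      intro w
      rw [Units.val_mul, Matrix.mulVec_mulVec]
    rw [e1, e1, hs.equiv h _ _ hh, h1 δ hδ, map_zero, smul_zero]
  have h3 : IsCus φ.1 := ⟨hs.zero_left, hs.zero_right, hs.add, hs.smul_left, hs.smul_right⟩
  have h4 := hMAN t ht φ.1 h3 ⊥ (fun γ => by rw [AddSubgroup.mem_bot]; exact h2 γ)
  apply Subtype.ext
  funext u v
  exact AddSubgroup.mem_bot.mp (h4 u v)

end Pool.Agent.OD
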